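import Pool.Agent.Helper79.PN.Lem

set_option autoImplicit false

/-!
BU1: budget of the vertices of index 1.
-/

open scoped Classical

namespace Pool.Agent.Helper20.PN

open Pool.Agent.Helper79.PN

/-- `K + e j` is a vertex if `h K j` is small. -/
theorem bu1_vert {P : Pen} {K : Lam} (hn : P.n K = 1) (hv : InV P K) (j : ZMod 5)
    (h : P.h K j < (g - 1) / 2) : InV P (K + e j) := by
  have g1 := g_gt
  have g2 := g_lt
  have v := w1 hn hv
  have n0 : P.n (K + e j) = 2 := by rw [P.n_add, hn]; rfl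
  obtain ⟨s0, s1, s4, s2, s3⟩ := P.stp K j
  have v1 := (v (j + 1)).2.2.2.1
  have v4 := (v (j - 1)).2.2.2.1
  have v2 := (v (j + 2)).2.2.2.1
  have v3 := (v (j - 2)).2.2.2.1
  refine (inv2 n0).2 (all5 j ?_ ?_ ?_ ?_ ?_) <;> linarith

/-- The second kind forces all values to be small. -/
theorem bu1_sec {P : Pen} {K : Lam} (m : ZMod 5)
    (h : X1 P.mir (-(K + e (m + 2) + e (m - 2) + e m)) m) (j : ZMod 5) :
    P.h K j < (g - 1) / 2 := by
  obtain ⟨hn, hv, a1, a2, a3⟩ := h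
  have g1 := g_gt
  have g2 := g_lt
  have gs := g_sq
  rw [Pen.mir_n, neg_neg] at hn
  have hn4 : P.n (K + e (m + 2) + e (m - 2) + e m) = 4 := by omega
  rw [inv_mir, inv4 hn4] at hv
  rw [Pen.mir_h, neg_neg] at a1 a2 a3
  have b2 := hv (m + 2)
  have b3 := hv (m - 2)
  obtain ⟨-, s1, s4, s2, s3⟩ := P.stp (K + e (m + 2) + e (m - 2)) m
  have s0 := (P.stp (K + e (m + 2) + e (m - 2)) m).1
  obtain ⟨q0, q1, q4, q2, q3⟩ := P.stp3 (K + e (m + 2)) m
  obtain ⟨p0, p1, p4, p2, p3⟩ := P.stp2 K m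
  obtain ⟨r1, r2, r3, r4, r5⟩ := P.rel0 K m
  rw [s0, q0, p0] at a1
  rw [s1, q1, p1] at a2
  rw [s4, q4, p4] at a3
  rw [s2, q2, p2] at b2
  rw [s3, q3, p3] at b3
  have c0 : P.h K m < (g - 1) / 2 := by linarith
  have c0' := (gm c0).2
  have c0s : (g - 1) * ((g - 1) / 2) = (2 - g) / 2 := by linear_combination (1 / 2) * gs
  rw [c0s] at c0'
  have d1 : P.h K (m + 1) < (g - 1) / 2 := by linarith
  have d4 : P.h K (m - 1) < (g - 1) / 2 := by linarith
  have d2 : P.h K (m + 2) < (g - 1) / 2 := by linarith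
  have d3 : P.h K (m - 2) < (g - 1) / 2 := by linarith
  exact all5 (p := fun j => P.h K j < (g - 1) / 2) m c0 d1 d4 d2 d3 j

theorem bu1_dg {P : Pen} {K : Lam} (m : ZMod 5) :
    ind (InV P (K + e m)) + ind (InV P (K + e (m + 1))) + ind (InV P (K + e (m - 1))) +
      ind (InV P (K + e (m + 2))) + ind (InV P (K + e (m - 2))) ≤ dg P K := by
  unfold dg adj
  rw [sum5 m]
  linarith [ind_nonneg (InV P (K - e m)), ind_nonneg (InV P (K - e (m + 1))),
    ind_nonneg (InV P (K - e (m - 1))), ind_nonneg (InV P (K - e (m + 2))),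
    ind_nonneg (InV P (K - e (m - 2)))]

theorem st_BU1 : ST_BU1 := by
  intro P K p q hn hv ht hp hq
  have g1 := g_gt
  have g2 := g_lt
  have gs := g_sq
  have nt : ∀ j, ¬ ((g - 1) / 2 < P.h K j ∧ (g - 1) / 2 < P.h K (j + 1)) := by
    rintro j ⟨h1, h2⟩
    refine ht ((isT_1 hn).2 ⟨j - 2, hn, hv, ?_, ?_⟩)
    · rwa [m2p2]
    · rwa [m2m2]
  have lt_or : ∀ j, P.h K j < (g - 1) / 2 ∨ (g - 1) / 2 < P.h K j := fun j =>
    lt_or_gt_of_ne (nsa hn j)
  by_cases hA : ∃ m, (g - 1) / 2 < P.h K m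
  · obtain ⟨m, hm⟩ := hA
    have c1 : P.h K (m + 1) < (g - 1) / 2 := by
      rcases lt_or (m + 1) with h | h
      · exact h
      · exact absurd ⟨hm, h⟩ (nt m)
    have c4 : P.h K (m - 1) < (g - 1) / 2 := by
      rcases lt_or (m - 1) with h | h
      · exact h
      · exact absurd ⟨h, by rwa [m1p1]⟩ (nt (m - 1))
    obtain ⟨r1, r2, r3, r4, r5⟩ := P.rel0 K m
    have c1' := (gm c1).2
    have c4' := (gm c4).2
    have c0s : (g - 1) * ((g - 1) / 2) = (2 - g) / 2 := by linear_combination (1 / 2) * gs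
    rw [c0s] at c1' c4'
    have c2 : P.h K (m + 2) < (g - 1) / 2 := by linarith
    have c3 : P.h K (m - 2) < (g - 1) / 2 := by linarith
    have s1 : ∑ j, ind (X1 P K j) = 1 := by
      have hx : X1 P K m := ⟨hn, hv, hm, c1, c4⟩
      rw [sum5 m, ind_true hx,
        ind_false (fun h : X1 P K (m + 1) => absurd h.2.2.1 (not_lt.2 c1.le)),
        ind_false (fun h : X1 P K (m - 1) => absurd h.2.2.1 (not_lt.2 c4.le)),
        ind_false (fun h : X1 P K (m + 2) => absurd h.2.2.1 (not_lt.2 c2.le)),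
        ind_false (fun h : X1 P K (m - 2) => absurd h.2.2.1 (not_lt.2 c3.le))]
      norm_num
    have s2 : ∑ j, ind (X1 P.mir (-(K + e (j + 2) + e (j - 2) + e j)) j) = 0 := by
      refine Finset.sum_eq_zero fun j _ => ind_false fun h => ?_
      exact absurd (bu1_sec j h m) (not_lt.2 hm.le)
    have hd := bu1_dg (P := P) (K := K) m
    rw [ind_true (bu1_vert hn hv (m + 1) c1), ind_true (bu1_vert hn hv (m - 1) c4),
      ind_true (bu1_vert hn hv (m + 2) c2), ind_true (bu1_vert hn hv (m - 2) c3)] at hd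
    have hi := ind_nonneg (InV P (K + e m))
    rw [s1, s2]
    have := le_max_left p (5 * q - 1)
    linarith
  · push Not at hA
    have c : ∀ j, P.h K j < (g - 1) / 2 := fun j => by
      rcases lt_or j with h | h
      · exact h
      · exact absurd h (not_lt.2 (hA j))
    have s1 : ∑ j, ind (X1 P K j) = 0 := by
      refine Finset.sum_eq_zero fun j _ => ind_false fun h => ?_
      exact absurd h.2.2.1 (not_lt.2 (hA j))
    have s2 : ∑ j, ind (X1 P.mir (-(K + e (j + 2) + e (j - 2) + e j)) j) ≤ 5 := by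
      rw [sum5 0]
      linarith [ind_le_one (X1 P.mir (-(K + e (0 + 2) + e (0 - 2) + e 0)) 0),
        ind_le_one (X1 P.mir (-(K + e (0 + 1 + 2) + e (0 + 1 - 2) + e (0 + 1))) (0 + 1)),
        ind_le_one (X1 P.mir (-(K + e (0 - 1 + 2) + e (0 - 1 - 2) + e (0 - 1))) (0 - 1)),
        ind_le_one (X1 P.mir (-(K + e (0 + 2 + 2) + e (0 + 2 - 2) + e (0 + 2))) (0 + 2)),
        ind_le_one (X1 P.mir (-(K + e (0 - 2 + 2) + e (0 - 2 - 2) + e (0 - 2))) (0 - 2))]
    have hd := bu1_dg (P := P) (K := K) 0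
    rw [ind_true (bu1_vert hn hv 0 (c 0)), ind_true (bu1_vert hn hv (0 + 1) (c _)),
      ind_true (bu1_vert hn hv (0 - 1) (c _)), ind_true (bu1_vert hn hv (0 + 2) (c _)),
      ind_true (bu1_vert hn hv (0 - 2) (c _))] at hd
    have h3 := mul_le_mul_of_nonneg_left s2 hq
    rw [s1]
    have := le_max_right p (5 * q - 1)
    linarith

end Pool.Agent.Helper20.PN
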